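import Pool.Agent.Helper85.PCP.GDefs

namespace PCP4

theorem gpb_snoc (u : List ℕ) (k : ℕ) :
    (List.replicate (k + 1) u).flatten = (List.replicate k u).flatten ++ u := by
  rw [List.replicate_succ', List.flatten_append]
  simp

theorem gpb_cons (u : List ℕ) (k : ℕ) :
    (List.replicate (k + 1) u).flatten = u ++ (List.replicate k u).flatten := by
  rw [List.replicate_succ, List.flatten_cons]

theorem gpb_len (u : List ℕ) (k : ℕ) : (List.replicate k u).flatten.length = k * u.length := by
  induction k with
  | zero => simp
  | succ k ih =>
    rw [gpb_snoc, List.length_append, ih]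
    ring

theorem gpb_step (u v z s1 s2 : List ℕ) (hl : u.length = v.length) (k : ℕ)
    (hk : z.length ≤ k * u.length)
    (h : (List.replicate (k + 1) u).flatten ++ s1 = z ++ (List.replicate (k + 1) v).flatten ++ s2) :
    (List.replicate k u).flatten ++ s1 = z ++ (List.replicate k v).flatten ++ s2 := by
  have hA : z.length ≤ (List.replicate k u).flatten.length := by rw [gpb_len]; exact hk
  have h1 : List.take z.length ((List.replicate (k + 1) u).flatten ++ s1) =
      List.take z.length (List.replicate k u).flatten := by
    rw [gpb_snoc, List.append_assoc, List.take_append_of_le_length hA]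
  have h2 : List.drop (z.length + u.length) ((List.replicate (k + 1) u).flatten ++ s1) =
      List.drop z.length (List.replicate k u).flatten ++ s1 := by
    rw [gpb_cons, List.append_assoc, Nat.add_comm, ← List.drop_drop, List.drop_left,
      List.drop_append_of_le_length hA]
  have h3 : List.take z.length (z ++ (List.replicate (k + 1) v).flatten ++ s2) = z := by
    rw [List.append_assoc, List.take_left]
  have h4 : List.drop (z.length + u.length) (z ++ (List.replicate (k + 1) v).flatten ++ s2) =
      (List.replicate k v).flatten ++ s2 := by
    rw [gpb_cons, List.append_assoc, List.append_assoc, ← List.drop_drop, List.drop_left, hl,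
      List.drop_left]
  rw [h] at h1 h2
  rw [h3] at h1
  rw [h4] at h2
  calc (List.replicate k u).flatten ++ s1
      = (List.take z.length (List.replicate k u).flatten ++
          List.drop z.length (List.replicate k u).flatten) ++ s1 := by rw [List.take_append_drop]
    _ = List.take z.length (List.replicate k u).flatten ++
          (List.drop z.length (List.replicate k u).flatten ++ s1) := by rw [List.append_assoc]
    _ = z ++ ((List.replicate k v).flatten ++ s2) := by rw [← h1, ← h2]
    _ = _ := by rw [List.append_assoc]

/-- one step of the descent, the two prefixes in any order -/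
theorem gpb_desc (u v p1 p2 s1 s2 : List ℕ) (hl : u.length = v.length) (k : ℕ)
    (hle : p1.length ≤ p2.length) (hk : p2.length ≤ k * u.length)
    (h : p1 ++ (List.replicate (k + 1) u).flatten ++ s1 =
      p2 ++ (List.replicate (k + 1) v).flatten ++ s2) :
    p1 ++ (List.replicate k u).flatten ++ s1 = p2 ++ (List.replicate k v).flatten ++ s2 := by
  rw [List.append_assoc, List.append_assoc] at h
  obtain ⟨z, rfl⟩ : ∃ z, p2 = p1 ++ z := by
    have hp : p1 <+: p2 :=
      List.prefix_of_prefix_length_le ⟨_, rfl⟩ ⟨_, h.symm⟩ hle
    obtain ⟨z, hz⟩ := hp
    exact ⟨z, hz.symm⟩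
  rw [List.append_assoc p1 z, List.append_cancel_left_eq, ← List.append_assoc] at h
  have h5 := gpb_step u v z s1 s2 hl k (by
    rw [List.length_append] at hk
    omega) h
  rw [List.append_assoc p1 z, List.append_assoc p1, h5, List.append_assoc p1]

theorem st_GPB : ST_GPB := by
  intro u v p1 p2 s1 s2 k
  induction k with
  | zero => exact fun h => ⟨0, Nat.zero_le _, h⟩
  | succ k ih =>
    intro h
    by_cases hk : k + 1 ≤ p1.length + p2.length + s1.length + s2.length
    · exact ⟨k + 1, hk, h⟩
    push Not at hk
    have hlen := congrArg List.length h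
    simp only [List.length_append, gpb_len] at hlen
    have hl : u.length = v.length := by
      by_contra hne
      rcases Nat.lt_or_gt_of_ne hne with hlt | hlt
      · obtain ⟨d, hd⟩ := Nat.exists_eq_add_of_lt hlt
        rw [hd] at hlen
        nlinarith [Nat.zero_le (d * (k + 1))]
      · obtain ⟨d, hd⟩ := Nat.exists_eq_add_of_lt hlt
        rw [hd] at hlen
        nlinarith [Nat.zero_le (d * (k + 1))]
    rcases Nat.eq_zero_or_pos u.length with h0 | h0
    · have hu : u = [] := List.length_eq_zero_iff.mp h0
      have hv : v = [] := List.length_eq_zero_iff.mp (hl ▸ h0)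
      refine ⟨0, Nat.zero_le _, ?_⟩
      rw [hu, hv] at h
      simpa using h
    · apply ih
      rcases Nat.le_total p1.length p2.length with hle | hle
      · exact gpb_desc u v p1 p2 s1 s2 hl k hle (by nlinarith) h
      · exact (gpb_desc v u p2 p1 s2 s1 hl.symm k hle (by rw [← hl]; nlinarith) h.symm).symm

end PCP4
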